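import Pool.Agent.Q274.BKL.Cv
import Pool.Agent.Q274.BKC.H0

/-!
# Central values and Abel–Jacobi images of the motives of a CM elliptic curve, for all weights at once

Let `K = ℚ(√-7)` and `E = X_0(49) : y² + x y = x³ - x² - 2 x - 1`, with complex multiplication by the integers
of `K`, and let `ψ` be its Hecke character. For `i ≥ 0` and a positive squarefree `D ≡ 1 mod 8`, prime to `7`,
put `D_i = (-1)^i D`, and let `X` be the product of the quadratic twist of `E` by `D_i` and of `2 i` copies of
`E`: a smooth projective variety over `ℚ` of dimension `2 i + 1`. Its middle cohomology `H^(2i+1)(X)` contains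
the direct factor `H^(2i+1)(M)`, cut out by an idempotent correspondence `M = M_i(D)`, with the `L`-function
`L(ψ_D^(2i+1), s)`, `ψ_D` the twist of `ψ` by the quadratic character of `D_i`; the centre is `s = m = i + 1`.
It is the motive of the newform of weight `2 i + 2` with complex multiplication by `K`, twisted by `D_i`. For
`i = 0` this is `H^1` of the elliptic curve. Put `V = CH^m(M)^0 ⊗ ℚ`, the part of `V^m(X)` cut out by `M`.

Beilinson's conjecture for `M` says: (i) `V` is finite-dimensional, (ii) the height pairing on `V` is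
non-degenerate, (iii) `ord_{s=m} L(M, s) = dim V`, (iv) the leading coefficient is the period times the
determinant of the height pairing, up to a nonzero rational number.

**The Galois side.** `s ∈ K`, `s² = -7`; `v` is the prime of `K` above `2` at which `s` is `3` modulo `4`, `v'`
the prime at which `s` is `1` modulo `4`, and `t` is the image of `s` in `K_v = ℚ_2`. The restriction to `G_K` of
the `2`-adic realization of `M(m)` is the sum of a character `χ : G_K → ℤ_2^*` and of its conjugate; `χ` has the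
Hodge–Tate weight `i + 1` at `v` and `-i` at `v'`, and a Frobenius element at a prime `w = (A + B s)`, `w ∤ 14 D`,
satisfies `χ(Frob) = (A / 7) (D_i / N(w)) (A + B t)^(i+1) / (A - B t)^i`. The theorem is about all the
continuous characters `χ` with this property (`HasWeight`; `χ` exists by the theory of complex multiplication,
which is not used here, and is unique by Chebotarev's theorem). The group `H¹_f(K, ℚ_2(χ))` of Bloch and Kato
consists of the classes of the continuous cocycles which are coboundaries on the inertia groups of all primes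
not above `2` and on the decomposition groups of the primes above `v'`, with no condition at `v` (the
Hodge–Tate weight `i + 1` is positive at `v` and `-i ≤ 0` at `v'`, so that the local groups `H¹_f` are everything
at `v` and zero at `v'`). It is `H¹_f(ℚ, M_2(m))`, and it contains the image of `V` under the `2`-adic
Abel–Jacobi map (Nekovář, Nizioł: good reduction at `2`, weights).

**The matrix.** Let all prime factors of `D` be `1` modulo `4`, `D ≡ 1` modulo `8`. `R(D)` is the following
symmetric matrix over `𝔽₂`, with rows and columns indexed by the prime factors `p` of `D` which split in `K`: the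
entry at `(p, p')` is `0` if `p'` is a square modulo `p` and `1` otherwise; the diagonal entry at `p` is the sum
of the symbols of all the other prime factors of `D` modulo `p` and of the symbol which is `0` if `-7` is a fourth
power modulo `p` and `1` otherwise. The matrix does not depend on the weight.

**Theorem.** (1) For all `D` of the class and ALL `i ≥ 0`, even or odd, the dimension of `H¹_f(ℚ, M_2(m))` is at
most `2 corank R(D)`; so the Abel–Jacobi images of the null-homologous cycles of the `M_i(D)`, in all the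
codimensions `i + 1` on varieties of the dimensions `2 i + 1`, have at most this dimension.
(2) If `R(D)` is nonsingular, then for ALL even `i`: `L(M_i(D), s)` is entire and does not vanish at the central
point `s = m`; and for ALL `i` (even or odd): `H¹_f(ℚ, M_2(m)) = 0 = H⁰(ℚ, M_2(m))`, so that the Abel–Jacobi
image is zero. So (iii) holds for all even `i` at once, with both sides zero, for the quotient of `V` which the
`2`-adic Abel–Jacobi map sees (for `i = 0` this is `V`), and with the theorem of Damerell (`L(M, m)` is a rational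
multiple of the period) the leading coefficient is a NONZERO rational multiple of the period, as predicted by
(iv).
(3) Let `m_1, …, m_M` be different positive squarefree integers `≡ 1` modulo `8` whose prime factors are `1`
modulo `8` or inert in `K` and `5` modulo `8`. For the squarefree `D` with all prime factors `1` modulo `8`
the coranks of the matrices of the products `m_j D` (modulo squares) are asymptotically independent with the law
`α(b) = κ / ((2 - 1) (4 - 1) ⋯ (2^b - 1))`, `κ = (1 - 1/2) (1 - 1/8) (1 - 1/32) ⋯ = 0.4194…`; so for exactly the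
proportion `κ^M` of these `D` all the `M` twists satisfy (2), for all weights at once.

The proof: for `i = 0` the algebraic part of the central value is a sum of the values of the zeta function at
points of odd order. For even `i ≥ 2` the numbers of Eisenstein and Kronecker `i! e*_{i,i+1}(z)` at the points of
odd order are congruent modulo `4` to a `2`-stabilization of the numbers of weight zero, by the Lamé equations
for the function of Kronecker in both variables and the integrality of its Laurent series at the origin in the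
parameter of the formal group; the recursion over the divisors of `D` then gives that the `2`-adic valuation of
the algebraic part of `L(M_i(D), m)` is the least possible one exactly if `R(D)` is nonsingular, for all the
weights at once. The Selmer groups are bounded by a descent for all the weights at once. No Euler system is used.
-/

set_option autoImplicit false
set_option linter.all false

namespace Pool.Agent.Results.MP_29b22a_nt.CMMotivesAllWeights

open NumberField IsDedekindDomain Filter
open scoped Classical Topology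

/-- The absolute Galois group of `K`, with the Krull topology. -/
abbrev G (K : Type) [Field K] : Type := Gal(AlgebraicClosure K/K)

/-- The ring of all the algebraic integers in the algebraic closure of `K`. -/
abbrev Zbar (K : Type) [Field K] : Type := 𝓞 (AlgebraicClosure K)

section
variable {K : Type} [Field K]

/-- The decomposition group of the maximal ideal `Q`. -/
def decomposition (Q : Ideal (Zbar K)) : Set (G K) := {σ | ∀ x : Zbar K, σ • x ∈ Q ↔ x ∈ Q}

/-- The inertia group of the maximal ideal `Q`. -/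
def inertia (Q : Ideal (Zbar K)) : Set (G K) := {σ | ∀ x : Zbar K, σ • x - x ∈ Q}

/-- The value of the character `χ` in `ℚ_2`. -/
noncomputable def value (χ : G K →* ℤ_[2]ˣ) (σ : G K) : ℚ_[2] := ((χ σ : ℤ_[2]) : ℚ_[2])

/-- The restriction of `c` to `H` is a coboundary with values in `ℚ_2(χ)`. -/
def CoboundaryOn (χ : G K →* ℤ_[2]ˣ) (c : G K → ℚ_[2]) (H : Set (G K)) : Prop :=
  ∃ y : ℚ_[2], ∀ σ ∈ H, c σ = (value χ σ - 1) * y

/-- `Q` is above the prime `v'` of `K` above `2` at which `s` is `1` modulo `4`: `Q` contains `2` and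
`(1 - s) / 2`. -/
def AboveConj (s : K) (Q : Ideal (Zbar K)) : Prop := (2 : Zbar K) ∈ Q ∧
  ∃ z : Zbar K, z ∈ Q ∧ 2 * (z : AlgebraicClosure K) = 1 - algebraMap K (AlgebraicClosure K) s

/-- The continuous cocycles with values in `ℚ_2(χ)` which satisfy the conditions of Bloch and Kato: they
are coboundaries on the inertia groups outside `2` and on the decomposition groups above `v'`. -/
def IsSelmer (s : K) (χ : G K →* ℤ_[2]ˣ) (c : G K → ℚ_[2]) : Prop :=
  Continuous c ∧ (∀ σ τ, c (σ * τ) = c σ + value χ σ * c τ) ∧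
  (∀ Q : Ideal (Zbar K), Q.IsMaximal → (2 : Zbar K) ∉ Q → CoboundaryOn χ c (inertia Q)) ∧
  (∀ Q : Ideal (Zbar K), Q.IsMaximal → AboveConj s Q → CoboundaryOn χ c (decomposition Q))

/-- The space of these cocycles. -/
def selmer (s : K) (χ : G K →* ℤ_[2]ˣ) : Submodule ℚ_[2] (G K → ℚ_[2]) where
  carrier := {c | IsSelmer s χ c}
  add_mem' := by
    rintro a b ⟨ha1, ha2, ha3, ha4⟩ ⟨hb1, hb2, hb3, hb4⟩
    refine ⟨ha1.add hb1, fun σ τ => ?_, fun Q h1 h2 => ?_, fun Q h1 h2 => ?_⟩
    · simp only [Pi.add_apply, ha2, hb2]; ring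
    · obtain ⟨y, hy⟩ := ha3 Q h1 h2
      obtain ⟨z, hz⟩ := hb3 Q h1 h2
      exact ⟨y + z, fun σ hσ => by rw [Pi.add_apply, hy σ hσ, hz σ hσ]; ring⟩
    · obtain ⟨y, hy⟩ := ha4 Q h1 h2
      obtain ⟨z, hz⟩ := hb4 Q h1 h2
      exact ⟨y + z, fun σ hσ => by rw [Pi.add_apply, hy σ hσ, hz σ hσ]; ring⟩
  zero_mem' := by
    refine ⟨continuous_const, fun σ τ => by simp, fun Q _ _ => ⟨0, fun σ _ => by simp⟩,
      fun Q _ _ => ⟨0, fun σ _ => by simp⟩⟩
  smul_mem' := by
    rintro k a ⟨ha1, ha2, ha3, ha4⟩
    refine ⟨ha1.const_smul k, fun σ τ => ?_, fun Q h1 h2 => ?_, fun Q h1 h2 => ?_⟩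
    · simp only [Pi.smul_apply, ha2, smul_eq_mul]; ring
    · obtain ⟨y, hy⟩ := ha3 Q h1 h2
      exact ⟨k * y, fun σ hσ => by rw [Pi.smul_apply, hy σ hσ, smul_eq_mul]; ring⟩
    · obtain ⟨y, hy⟩ := ha4 Q h1 h2
      exact ⟨k * y, fun σ hσ => by rw [Pi.smul_apply, hy σ hσ, smul_eq_mul]; ring⟩

/-- The space of the coboundaries `σ ↦ (χ(σ) - 1) y` (they are in `selmer s χ`). -/
noncomputable def coboundaries (χ : G K →* ℤ_[2]ˣ) : Submodule ℚ_[2] (G K → ℚ_[2]) :=
  Submodule.span ℚ_[2] {fun σ => value χ σ - 1}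

/-- The Bloch–Kato Selmer group `H¹_f(K, ℚ_2(χ))`: the cocycles modulo the coboundaries. -/
abbrev H1f (s : K) (χ : G K →* ℤ_[2]ˣ) : Type :=
  selmer s χ ⧸ (coboundaries χ).comap (selmer s χ).subtype

end

/-- `σ` is a Frobenius element at the prime `w` of `K`: `σ x ≡ x ^ N(w)` modulo some maximal ideal above
`w` of the ring of all algebraic integers. -/
def IsFrobenius {K : Type} [Field K] [NumberField K] (w : HeightOneSpectrum (𝓞 K)) (σ : G K) : Prop :=
  ∃ Q : Ideal (Zbar K), Q.IsMaximal ∧ Q.comap (algebraMap (𝓞 K) (Zbar K)) = w.asIdeal ∧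
    ∀ x : Zbar K, σ • x - x ^ Ideal.absNorm w.asIdeal ∈ Q

/-- The invariants `H⁰(K, ℚ_2(χ))`. -/
def invariants {K : Type} [Field K] (χ : G K →* ℤ_[2]ˣ) : Submodule ℚ_[2] ℚ_[2] where
  carrier := {x | ∀ σ, value χ σ * x = x}
  add_mem' := fun ha hb σ => by rw [mul_add, ha σ, hb σ]
  zero_mem' := fun σ => mul_zero _
  smul_mem' := fun k a ha σ => by rw [smul_eq_mul, mul_left_comm, ha σ]

/-- `χ` is the 2-adic character of `ψ^(i+1) ψ'^(-i)` twisted by the quadratic character of `(-1)^i D`; `t` is
the image of `s` at `v`. For the primes `w` not dividing `14 D` and for odd `n`, `w^n = (A + B s)`: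
`χ(Frob_w)^n (A - B t)^i = (A / 7) ((-1)^i D / (A² + 7 B²)) (A + B t)^(i+1)`. (The case `n = 1` suffices, since
`w` is principal.) -/
def HasWeight {K : Type} [Field K] [NumberField K] (D i : ℕ) (s : K) (t : ℤ_[2])
    (χ : G K →* ℤ_[2]ˣ) : Prop :=
  ∀ (w : HeightOneSpectrum (𝓞 K)) (σ : G K) (n : ℕ) (A B : ℤ) (β : 𝓞 K),
    ((14 * D : ℕ) : 𝓞 K) ∉ w.asIdeal → IsFrobenius w σ → Odd n →
    w.asIdeal ^ n = Ideal.span {β} → (β : K) = A + B * s →
    ((χ σ : ℤ_[2]) ^ n) * ((A : ℤ_[2]) - B * t) ^ i =
      ((jacobiSym A 7 * jacobiSym ((-1) ^ i * D) (A ^ 2 + 7 * B ^ 2).natAbs : ℤ) : ℤ_[2]) *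
        ((A : ℤ_[2]) + B * t) ^ (i + 1)

/-- `a_p = p - #{(x, y) mod p : y² + x y = x³ - x² - 2 x - 1}`. -/
noncomputable def a (p : ℕ) : ℤ := p - Nat.card {x : ZMod p × ZMod p //
  x.2 ^ 2 + x.1 * x.2 = x.1 ^ 3 - x.1 ^ 2 - 2 * x.1 - 1}

/-- `π^n + π'^n`, for `X² - a_p X + p = (X - π) (X - π')`. -/
noncomputable def powerSum (p : ℕ) : ℕ → ℤ
  | 0 => 2
  | 1 => a p
  | n + 2 => a p * powerSum p (n + 1) - p * powerSum p n

/-- The Euler factor of `M_i(D)` at `p`, all `p`, `i` even; the variable is `s - m` (the centre is `0`). -/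
noncomputable def eulerFactor (D i : ℕ) (s : ℂ) (p : ℕ) : ℂ :=
  1 - (jacobiSym p D * powerSum p (2 * i + 1) : ℤ) * (p : ℂ) ^ (-(s + i + 1)) +
    (if p = 7 then 0 else 1) * ((jacobiSym p D ^ 2 * p ^ (2 * i + 1) : ℤ) : ℂ) *
      ((p : ℂ) ^ (-(s + i + 1))) ^ 2

/-- `F` is the `L`-function `L(M_i(D), s + m)`: an entire function which is the product of the inverses of all the
Euler factors for `Re s > 1/2`. -/
def IsLFunction (D i : ℕ) (F : ℂ → ℂ) : Prop := Differentiable ℂ F ∧
  ∀ s : ℂ, 1 / 2 < s.re → HasProd (fun p : Nat.Primes => (eulerFactor D i s p)⁻¹) (F s)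

/-- The class of the `D`: squarefree, all prime factors `1` modulo `4`, `D ≡ 1` modulo `8`. -/
def Class (D : ℕ) : Prop := Squarefree D ∧ (∀ p : ℕ, p.Prime → p ∣ D → p % 4 = 1) ∧ D % 8 = 1

/-- The prime factors of `D` which split in `ℚ(√-7)`. -/
noncomputable def splitPrimes (D : ℕ) : Finset ℕ :=
  D.primeFactors.filter fun p => IsSquare (-7 : ZMod p)

/-- `0` if `a` is a square modulo `p` and `1` otherwise. -/
noncomputable def nonsquare (p a : ℕ) : ZMod 2 := if IsSquare (a : ZMod p) then 0 else 1

/-- `0` if `-7` is a fourth power modulo `p` and `1` otherwise. -/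
noncomputable def nonfourth (p : ℕ) : ZMod 2 := if ∃ y : ZMod p, y ^ 4 = -7 then 0 else 1

/-- The matrix `R(D)`. -/
noncomputable def R (D : ℕ) : Matrix (splitPrimes D) (splitPrimes D) (ZMod 2) :=
  Matrix.of fun i j => if i = j then ∑ r ∈ D.primeFactors.erase i, nonsquare i r + nonfourth i
    else nonsquare i j

/-- The corank of `R(D)`: the dimension of its kernel. -/
noncomputable def corank (D : ℕ) : ℕ :=
  Module.finrank (ZMod 2) (LinearMap.ker (Matrix.mulVecLin (R D)))

/-- The squarefree integers with all prime factors `1` modulo `8`. -/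
def Class8 (D : ℕ) : Prop := Squarefree D ∧ ∀ p : ℕ, p.Prime → p ∣ D → p % 8 = 1

/-- The factors `m_j`: in the class, all prime factors `1` mod `8` or inert in `ℚ(√-7)` and `5` mod `8`. -/
def Factor (m : ℕ) : Prop := Class m ∧
  ∀ p : ℕ, p.Prime → p ∣ m → p % 8 = 1 ∨ (p % 8 = 5 ∧ ¬ IsSquare (-7 : ZMod p))

/-- The squarefree part of `m D`, for squarefree `m` and `D`. -/
def times (m D : ℕ) : ℕ := m * D / Nat.gcd m D ^ 2

/-- The proportion of the `D ≤ X` with property `T` among those with all prime factors `1` mod `8`. -/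
noncomputable def proportion (T : ℕ → Prop) (X : ℕ) : ℝ :=
  (((Finset.Icc 1 X).filter fun D => Class8 D ∧ T D).card : ℝ) /
    (((Finset.Icc 1 X).filter fun D => Class8 D).card : ℝ)

/-- The number `κ = (1 - 1/2) (1 - 1/8) (1 - 1/32) ⋯`. -/
noncomputable def κ : ℝ := ∏' i : ℕ, (1 - (1 / 2 : ℝ) ^ (2 * i + 1))

/-- The law `α(b) = κ / ((2 - 1) (4 - 1) ⋯ (2 ^ b - 1))`. -/
noncomputable def α (b : ℕ) : ℝ := κ / ∏ i ∈ Finset.range b, ((2 : ℝ) ^ (i + 1) - 1)

/-- The dimensions of `H¹_f` and `H⁰` for `M_i(D)`: for all fields `K = ℚ(√-7)` and all continuous characters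
`χ` of weight `i`, `dim H¹_f(K, ℚ_2(χ)) ≤ b` and `H⁰(K, ℚ_2(χ)) = 0`. -/
def SelmerBound (D i b : ℕ) : Prop :=
  ∀ (K : Type) [Field K] [NumberField K] (s : K) (t : ℤ_[2]) (χ : G K →* ℤ_[2]ˣ),
    Module.finrank ℚ K = 2 → s ^ 2 = -7 → t ^ 2 = -7 → (4 : ℤ_[2]) ∣ t - 3 → Continuous χ →
    HasWeight D i s t χ →
    Module.rank ℚ_[2] (H1f s χ) ≤ (b : Cardinal) ∧ Module.rank ℚ_[2] (invariants χ) = 0

/-- The `L`-function of `M_i(D)` (`i` even) is entire and does not vanish at the centre. -/
def CentralValue (D i : ℕ) : Prop := ∃ F : ℂ → ℂ, IsLFunction D i F ∧ F 0 ≠ 0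

/-- (1) The bound, for all weights. -/
def AbelJacobiImages : Prop := ∀ D : ℕ, Class D → ∀ i : ℕ, SelmerBound D i (2 * corank D)

/-- (2) Both sides are zero. -/
def RankZero : Prop := ∀ D : ℕ, Class D → (R D).det ≠ 0 →
  (∀ i : ℕ, Even i → CentralValue D i) ∧ ∀ i : ℕ, SelmerBound D i 0

/-- (3) The joint law of the coranks of the twists `m_1 D, …, m_M D`. -/
def JointLaw : Prop :=
  ∀ (M : ℕ) (m : Fin M → ℕ), Function.Injective m → (∀ j, Factor (m j)) →
    (∀ D, Class8 D → ∀ j, Class (times (m j) D)) ∧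
    (∀ b : Fin M → ℕ, Tendsto (proportion fun D => ∀ j, corank (times (m j) D) = b j) atTop
      (𝓝 (∏ j, α (b j)))) ∧
    Tendsto (proportion fun D => ∀ j, (R (times (m j) D)).det ≠ 0) atTop (𝓝 (κ ^ M))

section proof

open Pool.Agent.Q274.BKC

lemma sel_iff {K : Type} [Field K] (s : K) (χ : G K →* ℤ_[2]ˣ) (c : G K → ℚ_[2]) :
    IsSelmer s χ c ↔ IsSel s χ c :=
  ⟨fun h => ⟨h.1, h.2.1, h.2.2.1, h.2.2.2⟩, fun h => ⟨h.cont, h.coc, h.ine, h.dec⟩⟩

lemma sel_eq {K : Type} [Field K] (s : K) (χ : G K →* ℤ_[2]ˣ) : selmer s χ = Sel s χ :=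
  Submodule.ext fun c => sel_iff s χ c

/-- the dimension of the quotient by the coboundaries -/
lemma rank_eq {K : Type} [Field K] (s : K) (χ : G K →* ℤ_[2]ˣ) :
    Module.rank ℚ_[2] (H1f s χ) = Module.rank ℚ_[2] (Pool.Agent.Q274.BKC.H1f s χ) := by
  have key : ∀ W W' : Submodule ℚ_[2] (G K → ℚ_[2]), W = W' →
      Module.rank ℚ_[2] (W ⧸ (coboundaries χ).comap W.subtype) =
      Module.rank ℚ_[2] (W' ⧸ (B1 χ).comap W'.subtype) := by
    rintro W _ rfl
    rfl
  exact key _ _ (sel_eq s χ)

lemma cl_iff (D : ℕ) : Class D ↔ Cl 7 D := by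
  constructor
  · rintro ⟨h1, h2, h3⟩
    exact ⟨h1, fun p hp hd => ⟨h2 p hp hd, by have := h2 p hp hd; omega⟩, by omega⟩
  · rintro ⟨h1, h2, h3⟩
    exact ⟨h1, fun p hp hd => (h2 p hp hd).1, by omega⟩

lemma cl8_iff (D : ℕ) : Class8 D ↔ Cl8 7 D := by
  constructor
  · rintro ⟨h1, h2⟩
    exact ⟨h1, fun p hp hd => ⟨h2 p hp hd, by have := h2 p hp hd; omega⟩⟩
  · rintro ⟨h1, h2⟩
    exact ⟨h1, fun p hp hd => (h2 p hp hd).1⟩

lemma fac_iff {m : ℕ} (h : Factor m) : Clm 7 m ∧ (16 : ℤ) ∣ 2 * m + 5 - (7 : ℕ) := by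
  have hc := (cl_iff m).1 h.1
  exact ⟨⟨h.1.1, fun p hp hm => ⟨by simpa using h.2 p hp hm, (hc.one p hp hm).2⟩⟩, hc.cong⟩

lemma sp_eq (D : ℕ) : splitPrimes D = SP 7 D := by
  unfold splitPrimes SP
  simp

/-- the coranks are the same -/
lemma corank_eq (D : ℕ) : corank D = Pool.Agent.Q274.BKC.corank 7 D := by
  have key : ∀ (S : Finset ℕ) (h : S = SP 7 D),
      Module.finrank (ZMod 2) (LinearMap.ker (Matrix.mulVecLin (Matrix.of fun i j : S =>
        if i = j then ∑ r ∈ D.primeFactors.erase (i : ℕ), nonsquare i r + nonfourth i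
        else nonsquare i j))) =
      Module.finrank (ZMod 2) (LinearMap.ker (Matrix.mulVecLin (Pool.Agent.Q274.BKC.R 7 D))) := by
    rintro S rfl
    congr 1
  exact key _ (sp_eq D)

lemma det_iff' (D : ℕ) : (R D).det ≠ 0 ↔ corank D = 0 := by
  unfold corank
  rw [Submodule.finrank_eq_zero, Matrix.ker_mulVecLin_eq_bot_iff]
  constructor
  · intro h v hv
    by_contra h0
    exact h (Matrix.exists_mulVec_eq_zero_iff.1 ⟨v, h0, hv⟩)
  · intro h h0
    obtain ⟨v, hv, hv0⟩ := Matrix.exists_mulVec_eq_zero_iff.2 h0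
    exact hv (h v hv0)

lemma weight_iff {K : Type} [Field K] [NumberField K] {D i : ℕ} {s : K} {t : ℤ_[2]}
    {χ : G K →* ℤ_[2]ˣ} (h : HasWeight D i s t χ) : IsWeight 7 D i s t χ := by
  intro w σ n A B β h1 h2 h3 h4 h5
  have h6 := h w σ n A B β (by simpa using h1) h2 h3 h4 h5
  exact_mod_cast h6

/-- the bound -/
lemma bound {D : ℕ} (hD : Class D) (i : ℕ) : SelmerBound D i (2 * corank D) := by
  intro K _ _ s t χ hK hs ht ht4 hc hχ
  have hD' := (cl_iff D).1 hD
  have hw := weight_iff hχ
  have hs' : s ^ 2 = -((7 : ℕ) : K) := by push_cast; exact hs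
  have ht' : t ^ 2 = -((7 : ℕ) : ℤ_[2]) := by push_cast; exact ht
  refine ⟨?_, ?_⟩
  · have h := Pool.Agent.Q274.BKC.main K 7 D i s t χ (by norm_num) rfl hD' hs' hK ht' ht4 hc hw
    rw [← rank_eq, ← corank_eq] at h
    exact h
  · rw [rank_zero_iff_forall_zero]
    rintro ⟨x, hx⟩
    exact Subtype.ext (Pool.Agent.Q274.BKC.h0 K 7 D i s t χ (by norm_num) rfl hD' hs' hK ht'
      ht4 hc hw x hx)

end proof

theorem result : AbelJacobiImages ∧ RankZero ∧ JointLaw ∧ 0.4194 < κ ∧ κ < 0.4195 := by
  refine ⟨fun D hD i => bound hD i, ?_, ?_, Pool.Agent.Q274.BKC.kappa_bounds.1,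
    Pool.Agent.Q274.BKC.kappa_bounds.2⟩
  · intro D hD hR
    have hD' := (cl_iff D).1 hD
    have h0 := (det_iff' D).1 hR
    refine ⟨fun i hi => ?_, fun i => ?_⟩
    · have h0' : Pool.Agent.Q274.BKC.corank 7 D = 0 := by rw [← corank_eq]; exact h0
      obtain ⟨F, g1, g2, g3⟩ := Pool.Agent.Q274.BKL.central_ep hD' h0' hi
      refine ⟨F, ⟨g1, fun s hs => ?_⟩, g3⟩
      have e : ∀ p : ℕ, powerSum p = Pool.Agent.Q274.BKL.uu p := by
        intro p
        funext n
        induction n using Nat.twoStepInduction with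
        | zero => rfl
        | one => rfl
        | more n h1 h2 =>
          rw [powerSum, Pool.Agent.Q274.BKL.uu, h1, h2]
          rfl
      have h1 := g2 s hs
      unfold Pool.Agent.Q274.BKL.ef at h1
      unfold eulerFactor
      simp only [e]
      exact h1
    · have h := bound hD i
      rw [h0] at h
      simpa using h
  · intro M m hm hf
    have law : ∀ b : Fin M → ℕ, Tendsto (proportion fun D => ∀ j, corank (times (m j) D) = b j) atTop
        (𝓝 (∏ j, α (b j))) := by
      intro b
      have h := Pool.Agent.Q274.BKC.t_LAW 7 (by norm_num) rfl M m b hm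
        fun j => (fac_iff (hf j)).1
      rw [Pool.Agent.Q274.BKC.cR_eq] at h
      refine h.congr fun X => ?_
      unfold proportion
      simp only [corank_eq, cl8_iff]
      congr! 4
    refine ⟨fun D hD j => ?_, law, ?_⟩
    · obtain ⟨h1, h2⟩ := fac_iff (hf j)
      exact (cl_iff _).2 (Pool.Agent.Q274.BKC.tw_Cl h1 h2 ((cl8_iff D).1 hD))
    · have h := law fun _ => 0
      have e : (∏ _j : Fin M, α 0) = κ ^ M := by simp [α]
      rw [e] at h
      refine h.congr fun X => ?_
      simp only [det_iff']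

end Pool.Agent.Results.MP_29b22a_nt.CMMotivesAllWeights
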