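import Pool.Agent.Q69.LJ.MomC

/-!
# Joint moments of the central Euler products of all constituents of the cohomology of products of curves

Let `K` be a number field with the ring of integers `𝓞`, and let `C_1, ..., C_n` be the curves of genus `g_j ≥ 1`
`C_j : y ^ 2 = f_j(x) = (x - a_1) ⋯ (x - a_{r_j}) h(x) + l(x) ^ 2`,
with monic `h` of degree `2 g_j + 1 - r_j` and `l` of degree `< r_j` over `𝓞`, `0 ≤ r_j ≤ g_j`: these are the curves `y ^ 2 = f(x)`,
`f` monic of degree `2 g_j + 1`, with `r_j` marked points `(a_i, l(a_i))` in general position. Let `X = C_1 × ⋯ × C_n`. By the formula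
of Künneth the groups `H^(2m-1)(X)` are sums of twists of the representations `V_S = ⊗_{j ∈ S} H^1(C_j)`, `S` a set of an odd
number of indices, and `L(H^(2m-1)(X), s)` at the central point `s = m` of the conjectures of Beilinson is the product of the
`L(V_S, s)` at their centres `s = (|S| + 1) / 2`.

Let `P_S(X)` be the product of the `det (1 - Frob_v (N v) ^ (-(|S| + 1) / 2) | V_S)` over the good primes `v` of norm at most `X`, so
that `P_S(X) ^ (-1)` is the truncated central value of `L(V_S, s)`. Here all the joint moments of the `2 ^ (n - 1)` numbers `P_S(X)` over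
the family are determined up to a constant factor: if the coordinates of the parameters in a `ℤ`-basis of `𝓞` run through any box
with sides at least `exp (√X (log X) ^ 2)`, then for all real numbers `l_S` the average of `∏_S P_S(X) ^ (l_S)` is of the exact order
`(log X) ^ e`, `e = ∑_S (l_S κ_S + l_S ^ 2 / 2)`, `κ_S = r_j + 1 / 2` for `S = {j}` and `κ_S = 1 / 2` for `|S| ≥ 3`; and the average over the
parameters for which the Jacobians of all `C_j` have rank at least `r_j` over `K` is of the same order. So the joint moments are of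
the order of the products of the moments: the constituents are asymptotically independent also in this sense, and for
`l_S = -k` each of them contributes `k (k - 1) / 2`, the exponent of Keating and Snaith for families with orthogonal symmetry, minus
`k r_j` if `S = {j}`. The joint moments of the products `P_m(X)` for the groups `H^(2m-1)(X)` follow by the formula of Künneth.

Proof. The logarithms of the factors are functions of the residues modulo `v`. The products `∏_{j ∈ S} T_1(C_j)` of the traces of
Frobenius for different `S` are orthogonal, so that every linear combination `∑_S l_S log P_S` is a sum over the primes with the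
variance `(∑ l_S ^ 2) log log X + O(1)`. It is `O(√X)` by the theorem of Weil, so that its exponential is a Taylor polynomial of
degree `O(√X)` up to a tiny error, and by the chinese remainder theorem the moments of this order are those of a model of
independent variables. The parameters with a smaller rank are a proportion smaller than any power of `1 / log X`, by a sieve; the
Cauchy-Schwarz inequality shows that they do not contribute.
-/

set_option autoImplicit false

namespace Pool.Agent.Results.MP_29b22a_nt.JointMoments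

open Finset NumberField Polynomial
open Q282.JK Q282.PX Q282.MJ

/-- The sets of an odd number of indices `0, ..., n - 1`. -/
abbrev OddSet (n : ℕ) : Type := {S : Finset (Fin n) // Odd S.card}

/-- `κ_S = r_j + 1 / 2` for `S = {j}`, and `κ_S = 1 / 2` if `S` has more than one element. -/
noncomputable def exponentS {n : ℕ} (r : Fin n → ℕ) (S : Finset (Fin n)) : ℝ :=
  (if S.card = 1 then ∑ j ∈ S, (r j : ℝ) else 0) + 1 / 2

/-- The exponent `∑_S (l_S κ_S + l_S ^ 2 / 2)`. -/
noncomputable def exponent {n : ℕ} (r : Fin n → ℕ) (l : OddSet n → ℝ) : ℝ := ∑ S : OddSet n, (l S * exponentS r S.1 + l S ^ 2 / 2)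

/-- The box of the integers `n k` with `N k ≤ n k < N k + L k` for all `k`. -/
noncomputable def box {κ : Type} [Fintype κ] [DecidableEq κ] (N : κ → ℤ) (L : κ → ℕ) : Finset (κ → ℤ) :=
  Fintype.piFinset fun k => Ico (N k) (N k + L k)

/-- The elements `t i = ∑ n (i, j) b j` with the coordinates `n (i, j)`. -/
def combine {O : Type} [CommRing O] {ι : Type} {d : ℕ} (b : Fin d → O) (n : ι × Fin d → ℤ) : ι → O :=
  fun i => ∑ j, (n (i, j) : O) * b j

open Classical in
/-- The average over the `n` of the box of `F n` if `P n` and `0` otherwise. -/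
noncomputable def average {κ : Type} [Fintype κ] [DecidableEq κ] (N : κ → ℤ) (L : κ → ℕ) (P : (κ → ℤ) → Prop) (F : (κ → ℤ) → ℝ) : ℝ :=
  (∑ n ∈ (box N L).filter P, F n) / ∏ k, (L k : ℝ)

/-- Every `f j` is irreducible over `K`, and the group of the `K`-rational points of the Jacobian of the curve
`C_j : y ^ 2 = f_j(x)`, which is the class group of its affine coordinate ring over `K`, has rank at least `r j`. -/
def Ranks (K : Type) [Field K] [NumberField K] {n : ℕ} (r : Fin n → ℕ) (f : Fin n → (𝓞 K)[X]) : Prop :=
  ∀ j, Irreducible ((f j).map (algebraMap (𝓞 K) K)) ∧ HasClassRank (CoordRing ((f j).map (algebraMap (𝓞 K) K))) (r j)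

open Classical in
/-- Let `K` be a number field, `n ≥ 1`, `g_j ≥ 1` and `0 ≤ r_j ≤ g_j` for `j = 1, ..., n`, and consider the polynomials
`f_j = fj t j = (x - a_1) ⋯ (x - a_{r_j}) h(x) + l(x) ^ 2` of degree `2 g_j + 1` over the ring of integers of `K`, whose coefficients
are the parameters `t` with the index `j`, and the curves `C_j : y ^ 2 = f_j(x)`.

(1) For all real numbers `l_S`, `S` a set of an odd number of indices, there are `C > 0` and `X₁` with the following property. Let
`X ≥ X₁`, let `b` be a basis of the ring of integers of `K` over `ℤ`, and let a box `N k ≤ ν k < N k + L k` of coordinates be given all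
sides `L k` of which are at least `exp (√X (log X) ^ 2)`. Then the average of `∏_S P_S(X) ^ (l_S)` over the `ν` for which, with the
parameters `t = combine b ν`, all `f_j` are irreducible over `K` and the rank of the Jacobian of every `C_j` over `K` is at least
`r_j`, is at least `C ^ (-1) (log X) ^ e`, and the average over all `ν` is at most `C (log X) ^ e`, `e = ∑_S (l_S κ_S + l_S ^ 2 / 2)`,
`κ_S = r_j + 1 / 2` for `S = {j}` and `κ_S = 1 / 2` for `|S| ≥ 3`. Here `P_S(X)` is the product of the values at the centre
`(|S| + 1) / 2` of the reciprocals of the Euler factors of `L(⊗_{j ∈ S} H^1(C_j), s)` at the primes `v` with `GoodP f v` and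
`N v ≤ X`.

(2) For all real numbers `a_1, ..., a_n` the same is true for `∏_m P_m(X) ^ (a_m)`, with the exponent `e` formed with the numbers
`l_S = ∑_m a_m mult_m(S)`, where `P_m(X)` is the product of the `det (1 - Frob_v (N v) ^ (-m) | H^(2m-1)(C_1 × ... × C_n))` over the
same primes and `mult_m(S)` is the multiplicity of `⊗_{j ∈ S} H^1(C_j)` in `H^(2m-1)(C_1 × ... × C_n)`. In the formal statement `m`
is `i + 1` with `i : Fin n`. -/
theorem result (K : Type) [Field K] [NumberField K] (n : ℕ) (hn : 1 ≤ n) (g r : Fin n → ℕ) (hg : ∀ j, 1 ≤ g j)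
    (hr : ∀ j, r j ≤ g j) :
    (∀ l : OddSet n → ℝ, ∃ C : ℝ, 0 < C ∧ ∃ X₁ : ℕ, ∀ X : ℕ, X₁ ≤ X → ∀ (b : Module.Basis (Fin (Module.finrank ℚ K)) ℤ (𝓞 K))
      (N : Ix g r × Fin (Module.finrank ℚ K) → ℤ) (L : Ix g r × Fin (Module.finrank ℚ K) → ℕ),
      (∀ k, Real.exp (Real.sqrt X * Real.log X ^ 2) ≤ L k) →
        C⁻¹ * (Real.log X) ^ exponent r l ≤
          average N L (fun ν => Ranks K r (fj (combine b ν))) (fun ν => ∏ S : OddSet n, productS (fj (combine b ν)) S.1 X ^ l S) ∧
        average N L (fun _ => True) (fun ν => ∏ S : OddSet n, productS (fj (combine b ν)) S.1 X ^ l S) ≤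
          C * (Real.log X) ^ exponent r l) ∧
    (∀ a : Fin n → ℝ, ∃ C : ℝ, 0 < C ∧ ∃ X₁ : ℕ, ∀ X : ℕ, X₁ ≤ X → ∀ (b : Module.Basis (Fin (Module.finrank ℚ K)) ℤ (𝓞 K))
      (N : Ix g r × Fin (Module.finrank ℚ K) → ℤ) (L : Ix g r × Fin (Module.finrank ℚ K) → ℕ),
      (∀ k, Real.exp (Real.sqrt X * Real.log X ^ 2) ≤ L k) →
        C⁻¹ * (Real.log X) ^ exponent r (fun S => ∑ i : Fin n, a i * mult n (i + 1) S.1) ≤
          average N L (fun ν => Ranks K r (fj (combine b ν))) (fun ν => ∏ i : Fin n, productP (fj (combine b ν)) (i + 1) X ^ a i) ∧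
        average N L (fun _ => True) (fun ν => ∏ i : Fin n, productP (fj (combine b ν)) (i + 1) X ^ a i) ≤
          C * (Real.log X) ^ exponent r (fun S => ∑ i : Fin n, a i * mult n (i + 1) S.1)) := by
  have key : ∀ l : OddSet n → ℝ, ∃ C : ℝ, 0 < C ∧ ∃ X₁ : ℕ, ∀ X : ℕ, X₁ ≤ X → ∀ (b : Module.Basis (Fin (Module.finrank ℚ K)) ℤ (𝓞 K))
      (N : Ix g r × Fin (Module.finrank ℚ K) → ℤ) (L : Ix g r × Fin (Module.finrank ℚ K) → ℕ),
      (∀ k, Real.exp (Real.sqrt X * Real.log X ^ 2) ≤ L k) →
        C⁻¹ * (Real.log X) ^ exponent r l ≤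
          average N L (fun ν => Ranks K r (fj (combine b ν))) (fun ν => ∏ S : OddSet n, productS (fj (combine b ν)) S.1 X ^ l S) ∧
        average N L (fun _ => True) (fun ν => ∏ S : OddSet n, productS (fj (combine b ν)) S.1 X ^ l S) ≤
          C * (Real.log X) ^ exponent r l := by
    intro l
    obtain ⟨C, hC, X₁, hX₁, h⟩ := Q69.LJ.mom_C K n hn g r hg hr l
    refine ⟨Real.exp C, Real.exp_pos _, X₁, ?_⟩
    intro X hX b N L hL
    have hX16 : 16 ≤ X := hX₁.trans hX
    have hX0 : (16 : ℝ) ≤ X := by exact_mod_cast hX16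
    have hlogX : 1 < Real.log X := by
      rw [Real.lt_log_iff_exp_lt (by linarith)]
      linarith [Real.exp_one_lt_three]
    have hlog0 : 0 < Real.log X := by linarith
    have hb : ∀ x : 𝓞 K, ∃ a : Fin (Module.finrank ℚ K) → ℤ, x = ∑ j, (a j : 𝓞 K) * b j := by
      intro x
      refine ⟨fun j => b.repr x j, ?_⟩
      have h1 := b.sum_repr x
      rw [← h1]
      refine sum_congr rfl fun j _ => ?_
      rw [h1, zsmul_eq_mul]
    have hP0 : 0 < ∏ k, (L k : ℝ) := prod_pos fun k _ => (Real.exp_pos _).trans_le (hL k)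
    have hpow : ∀ a : ℝ, (Real.log X) ^ a = Real.exp (a * Real.log (Real.log X)) := by
      intro a
      rw [Real.rpow_def_of_pos hlog0, mul_comm]
    obtain ⟨h1, h2⟩ := h X hX _ le_rfl (fun j => b j) hb N L hL
    have e0 : exponent r l = ∑ S : OddSet n, l S * kS r S.1 + (∑ S : OddSet n, l S ^ 2) / 2 := by
      unfold exponent
      rw [sum_add_distrib, sum_div]
      rfl
    unfold average
    rw [hpow, le_div_iff₀ hP0, div_le_iff₀ hP0, ← Real.exp_neg, ← Real.exp_add, ← Real.exp_add, e0]
    have e1 : ∀ e : ℝ, -C + e * Real.log (Real.log X) = e * Real.log (Real.log X) - C := fun e => by ring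
    have e2 : ∀ e : ℝ, C + e * Real.log (Real.log X) = e * Real.log (Real.log X) + C := fun e => by ring
    rw [e1, e2]
    constructor
    · refine h1.trans (le_of_eq (sum_congr (Finset.ext fun ν => ?_) fun ν _ => rfl))
      refine (@mem_filter _ _ (_) _ _).trans (Iff.trans ?_ (@mem_filter _ _ (_) _ _).symm)
      exact ⟨fun h => ⟨h.1, fun j => ⟨(h.2 j).1, (h.2 j).2⟩⟩, fun h => ⟨h.1, fun j => ⟨(h.2 j).1, (h.2 j).2⟩⟩⟩
    · rw [@filter_true_of_mem _ _ (_) _ (fun _ _ => trivial)]
      exact h2
  refine ⟨key, fun a => ?_⟩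
  obtain ⟨C, hC, X₁, h⟩ := key (fun S => ∑ i : Fin n, a i * mult n (i + 1) S.1)
  refine ⟨C, hC, X₁, ?_⟩
  intro X hX b N L hL
  have h1 := h X hX b N L hL
  have h2 : ∀ ν : Ix g r × Fin (Module.finrank ℚ K) → ℤ, ∏ i : Fin n, productP (fj (combine b ν)) (i + 1) X ^ a i =
      ∏ S : OddSet n, productS (fj (combine b ν)) S.1 X ^ (∑ i : Fin n, a i * mult n (i + 1) S.1) := by
    intro ν
    have h3 : ∀ i : Fin n, productP (fj (combine b ν)) (i + 1) X ^ a i =
        Real.exp (∑ S : OddSet n, a i * mult n (i + 1) S.1 * Real.log (productS (fj (combine b ν)) S.1 X)) := by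
      intro i
      have h4 := (log_productP (fj (combine b ν)) (i + 1) X).1
      rw [Real.rpow_def_of_pos h4, log_kunneth (fj (combine b ν)) g (fj_monic hr _) (fj_natDegree hr _) (i + 1) (by omega) X]
      congr 1
      rw [mul_comm, mul_sum]
      refine (sum_subtype (s := (univ : Finset (Finset (Fin n))).filter (fun S => Odd S.card)) (p := fun S => Odd S.card)
        (F := inferInstance) (fun S => by simp)
        (fun S : Finset (Fin n) => a i * ((mult n (i + 1) S : ℝ) * Real.log (productS (fj (combine b ν)) S X)))).trans ?_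
      exact sum_congr rfl fun S _ => by ring
    have h5 : ∀ S : OddSet n, productS (fj (combine b ν)) S.1 X ^ (∑ i : Fin n, a i * (mult n (i + 1) S.1 : ℝ)) =
        Real.exp (∑ i : Fin n, a i * mult n (i + 1) S.1 * Real.log (productS (fj (combine b ν)) S.1 X)) := by
      intro S
      rw [Real.rpow_def_of_pos (log_productS (fj (combine b ν)) S.1 S.2 X).1, mul_comm, sum_mul]
    rw [prod_congr rfl fun i _ => h3 i, prod_congr rfl fun S _ => h5 S, ← Real.exp_sum, ← Real.exp_sum, sum_comm]
  simp only [h2]
  exact h1

end Pool.Agent.Results.MP_29b22a_nt.JointMoments
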