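import Pool.Agent.Q69.LJ.PrC

/-!
# Beilinson's conjecture for products of curves: large deviations of the central Euler products

Let `K` be a number field with the ring of integers `𝓞` (for example `K = ℚ`), and let `C_1, ..., C_n` be the curves of genus `g_j ≥ 1`
`C_j : y ^ 2 = f_j(x) = (x - a_1) ⋯ (x - a_{r_j}) h(x) + l(x) ^ 2`,
with monic `h` of degree `2 g_j + 1 - r_j` and `l` of degree `< r_j` over `𝓞`, `0 ≤ r_j ≤ g_j`: these are the curves `y ^ 2 = f(x)`,
`f` monic of degree `2 g_j + 1`, with `r_j` marked points `(a_i, l(a_i))` in general position. Let `X = C_1 × ⋯ × C_n` and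
`1 ≤ m ≤ n`. Beilinson's conjecture says that the order of `L(H^(2m-1)(X), s)` at the central point `s = m` is the rank of the group
of the homologically trivial cycles of codimension `m`. The marked points define `binom (n - 1) (m - 1) (r_1 + ⋯ + r_n)` such cycles
`(P - ∞) × points`. By the formula of Künneth `H^(2m-1)(X)` is the sum of `b` symplectic constituents, twists of the
`V_S = ⊗_{j ∈ S} H^1(C_j)`, `S` a set of an odd number of indices, with multiplicities `mult(S)`.

Let `P_m(X)` be the product of the `det (1 - Frob_v (N v) ^ (-m) | H^(2m-1))` over the good primes `v` of norm at most `X`, the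
reciprocal of the partial Euler product at the centre. For almost all `n`-tuples of curves `P_m(X) = (log X) ^ (κ_m + o(1))`,
`κ_m = binom (n - 1) (m - 1) (r_1 + ⋯ + r_n) + b / 2`. Here the number of the `n`-tuples with another order of magnitude is
determined. Let the coordinates of the parameters (the `a_i`, the coefficients of the `h` and `l`) in a `ℤ`-basis of `𝓞` run through any
box with sides at least `X ^ ((log log X) ^ 3)`. Then the proportion of the `n`-tuples with `P_m(X) ≥ (log X) ^ (κ_m + y)` is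
`(log X) ^ (-y ^ 2 / (2 σ_m ^ 2) + o(1))`, `σ_m ^ 2 = ∑_S mult(S) ^ 2`, uniformly in `0 ≤ y ≤ Y`, in the box and in the basis, and so is
the proportion of those with `P_m(X) ≤ (log X) ^ (κ_m - y)`; both remain true if only the `n`-tuples for which all `f_j` are
irreducible and the Jacobians of the `C_j` have rank at least `r_j` over `K` are counted. Hence for every real `ρ` the proportion of
the `n`-tuples whose product has the exponent `ρ ± η` is at least `(log X) ^ (-(ρ - κ_m) ^ 2 / (2 σ_m ^ 2) - ε)`: a large deviation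
principle with speed `log log X` and a Gaussian rate function.

Proof. The logarithms of the factors are functions of the residues modulo `v`, with mean `κ_m / N v` and mean square
`σ_m ^ 2 / N v` up to `O ((N v) ^ (-3 / 2))` over the family over the residue field, and the values at different primes over the same
rational prime are independent. The exponential moments of the sum over `p ≤ X` of a model of independent variables are computed up
to a constant factor; the parameters of a box with sides at least `X ^ ((log log X) ^ 3)` have the same joint moments as the model up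
to the order `(log log X) ^ 2`, up to a tiny error, and `(1 + x / 2 N) ^ (2 N)` is used instead of the exponential. The rank
conditions fail for a proportion smaller than any power of `1 / log X`, by a sieve with about `(log log X) ^ 2` primes.
-/

set_option autoImplicit false

namespace Pool.Agent.Results.MP_29b22a_nt.LargeDeviationsProducts

open Finset NumberField Polynomial
open Q282.JK Q282.PX Q282.MJ

/-- `κ_m = binom (n - 1) (m - 1) (r_1 + ... + r_n) + b / 2`, where `b` is the number of the constituents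
`H^(c_1)(C_1) ⊗ ... ⊗ H^(c_n)(C_n)`, `c_1 + ... + c_n = 2 m - 1`, of `H^(2m-1)(C_1 × ... × C_n)`. -/
noncomputable def exponent {n : ℕ} (r : Fin n → ℕ) (m : ℕ) : ℝ :=
  (n - 1).choose (m - 1) * ∑ j, (r j : ℝ) + (types n (2 * m - 1)).card / 2

/-- `σ_m ^ 2`: the sum of the squares of the multiplicities of the `⊗_{j ∈ S} H^1(C_j)`, `S` a set of an odd number of indices, in
`H^(2m-1)(C_1 × ... × C_n)`. -/
noncomputable def variance (n m : ℕ) : ℝ := ∑ S : {S : Finset (Fin n) // Odd S.card}, (mult n m S.1 : ℝ) ^ 2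

/-- The box of the integers `n k` with `N k ≤ n k < N k + L k` for all `k`. -/
noncomputable def box {κ : Type} [Fintype κ] [DecidableEq κ] (N : κ → ℤ) (L : κ → ℕ) : Finset (κ → ℤ) :=
  Fintype.piFinset fun k => Ico (N k) (N k + L k)

/-- The elements `t i = ∑ n (i, j) b j` with the coordinates `n (i, j)`. -/
def combine {O : Type} [CommRing O] {ι : Type} {d : ℕ} (b : Fin d → O) (n : ι × Fin d → ℤ) : ι → O :=
  fun i => ∑ j, (n (i, j) : O) * b j

open Classical in
/-- The proportion of the `n` of the box with the property `P`. -/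
noncomputable def proportion {κ : Type} [Fintype κ] [DecidableEq κ] (N : κ → ℤ) (L : κ → ℕ) (P : (κ → ℤ) → Prop) : ℝ :=
  (((box N L).filter P).card : ℝ) / ∏ k, (L k : ℝ)

/-- Every `f j` is irreducible over `K`, and the group of the `K`-rational points of the Jacobian of the curve
`C_j : y ^ 2 = f_j(x)`, which is the class group of its affine coordinate ring over `K`, has rank at least `r j`. -/
def Ranks (K : Type) [Field K] [NumberField K] {n : ℕ} (r : Fin n → ℕ) (f : Fin n → (𝓞 K)[X]) : Prop :=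
  ∀ j, Irreducible ((f j).map (algebraMap (𝓞 K) K)) ∧ HasClassRank (CoordRing ((f j).map (algebraMap (𝓞 K) K))) (r j)

open Classical in
/-- Let `K` be a number field, `1 ≤ m ≤ n`, `g_j ≥ 1` and `0 ≤ r_j ≤ g_j` for `j = 1, ..., n`, `Y ≥ 0`, `η > 0` and `ε > 0`. Then
`σ_m ^ 2 > 0`, and there is an `X₁` with the following property. Let `X ≥ X₁` and `T ≥ X ^ ((log log X) ^ 3)`, let `b` be a basis of
the ring of integers of `K` over `ℤ`, and let a box `N k ≤ ν k < N k + L k` of coordinates be given all sides `L k` of which are at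
least `T`. For `ν` in the box let `f_j = fj t j = (x - a_1) ⋯ (x - a_{r_j}) h(x) + l(x) ^ 2`, of degree `2 g_j + 1`, be the
polynomials with the parameters `t = combine b ν`, `C_j : y ^ 2 = f_j(x)`, and let `P_m(X)` be the product of the
`det (1 - Frob_v (N v) ^ (-m) | H^(2m-1)(C_1 × ... × C_n))` over the primes `v` of `K` with `GoodP f v` and `N v ≤ X`. Then:

* for all `0 ≤ y ≤ Y` the proportion of the `ν` for which all `f_j` are irreducible over `K`, the rank of the Jacobian of every `C_j`
  over `K` is at least `r_j`, and `P_m(X) ≥ (log X) ^ (κ_m + y)`, is at least `(log X) ^ (-y ^ 2 / (2 σ_m ^ 2) - ε)`, and the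
  proportion of the `ν` with `P_m(X) ≥ (log X) ^ (κ_m + y)` is at most `(log X) ^ (-y ^ 2 / (2 σ_m ^ 2) + ε)`;
* for all `0 ≤ y ≤ Y` both bounds hold with `P_m(X) ≤ (log X) ^ (κ_m - y)` instead of `P_m(X) ≥ (log X) ^ (κ_m + y)`;
* for all real `ρ` with `|ρ - κ_m| ≤ Y` the proportion of the `ν` for which all `f_j` are irreducible over `K`, the rank of the Jacobian
  of every `C_j` over `K` is at least `r_j`, and `(log X) ^ (ρ - η) ≤ P_m(X) ≤ (log X) ^ (ρ + η)`, is at least
  `(log X) ^ (-(ρ - κ_m) ^ 2 / (2 σ_m ^ 2) - ε)`.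

For `n = 2 i + 1`, `m = i + 1` this is the group `H^(2i+1)` of a variety of dimension `2 i + 1`. -/
theorem result (K : Type) [Field K] [NumberField K] (n m : ℕ) (hm : 1 ≤ m) (hmn : m ≤ n) (g r : Fin n → ℕ) (hg : ∀ j, 1 ≤ g j)
    (hr : ∀ j, r j ≤ g j) (Y η ε : ℝ) (hY : 0 ≤ Y) (hη : 0 < η) (hε : 0 < ε) :
    0 < variance n m ∧ ∃ X₁ : ℕ, ∀ X : ℕ, X₁ ≤ X → ∀ T : ℝ, (X : ℝ) ^ ((Real.log (Real.log X)) ^ 3) ≤ T →
    ∀ (b : Module.Basis (Fin (Module.finrank ℚ K)) ℤ (𝓞 K))
    (N : Ix g r × Fin (Module.finrank ℚ K) → ℤ) (L : Ix g r × Fin (Module.finrank ℚ K) → ℕ),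
    (∀ k, T ≤ L k) →
      (∀ y : ℝ, 0 ≤ y → y ≤ Y →
        (Real.log X) ^ (-(y ^ 2 / (2 * variance n m)) - ε) ≤
          proportion N L (fun ν => Ranks K r (fj (combine b ν)) ∧ (Real.log X) ^ (exponent r m + y) ≤ productP (fj (combine b ν)) m X) ∧
        proportion N L (fun ν => (Real.log X) ^ (exponent r m + y) ≤ productP (fj (combine b ν)) m X) ≤
          (Real.log X) ^ (-(y ^ 2 / (2 * variance n m)) + ε)) ∧
      (∀ y : ℝ, 0 ≤ y → y ≤ Y →
        (Real.log X) ^ (-(y ^ 2 / (2 * variance n m)) - ε) ≤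
          proportion N L (fun ν => Ranks K r (fj (combine b ν)) ∧ productP (fj (combine b ν)) m X ≤ (Real.log X) ^ (exponent r m - y)) ∧
        proportion N L (fun ν => productP (fj (combine b ν)) m X ≤ (Real.log X) ^ (exponent r m - y)) ≤
          (Real.log X) ^ (-(y ^ 2 / (2 * variance n m)) + ε)) ∧
      (∀ ρ : ℝ, |ρ - exponent r m| ≤ Y →
        (Real.log X) ^ (-((ρ - exponent r m) ^ 2 / (2 * variance n m)) - ε) ≤
          proportion N L (fun ν => Ranks K r (fj (combine b ν)) ∧ (Real.log X) ^ (ρ - η) ≤ productP (fj (combine b ν)) m X ∧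
            productP (fj (combine b ν)) m X ≤ (Real.log X) ^ (ρ + η))) := by
  obtain ⟨τ, hτ⟩ : ∃ τ : ℝ, τ = Real.sqrt (sig (types n (2 * m - 1))) := ⟨_, rfl⟩
  obtain ⟨hτ0, X₁, hX₁, h⟩ := Q69.LJ.ldp_Cu K n m hm hmn g r hg hr (exponent r m) τ rfl hτ Y η ε hY hη hε
  have hvar : variance n m = τ ^ 2 := by
    rw [hτ, Real.sq_sqrt (Nat.cast_nonneg _), sig_types hm]
    unfold variance
    push_cast
    rfl
  rw [hvar]
  refine ⟨by positivity, X₁, ?_⟩
  intro X hX T hT b N L hL
  have hX16 : 16 ≤ X := hX₁.trans hX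
  have hX0 : (16 : ℝ) ≤ X := by exact_mod_cast hX16
  have hlogX : 1 < Real.log X := Q69.LJ.one_lt_log X hX16
  have hlog0 : 0 < Real.log X := by linarith
  have hb : ∀ x : 𝓞 K, ∃ a : Fin (Module.finrank ℚ K) → ℤ, x = ∑ j, (a j : 𝓞 K) * b j := by
    intro x
    refine ⟨fun j => b.repr x j, ?_⟩
    have h1 := b.sum_repr x
    rw [← h1]
    refine sum_congr rfl fun j _ => ?_
    rw [h1, zsmul_eq_mul]
  have hT0 : 0 < T := lt_of_lt_of_le (Real.rpow_pos_of_pos (by linarith) _) hT
  have hP0 : 0 < ∏ k, (L k : ℝ) := prod_pos fun k _ => hT0.trans_le (hL k)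
  have hpow : ∀ a : ℝ, (Real.log X) ^ a = Real.exp (a * Real.log (Real.log X)) := by
    intro a
    rw [Real.rpow_def_of_pos hlog0, mul_comm]
  have hpos : ∀ ν : Ix g r × Fin (Module.finrank ℚ K) → ℤ, 0 < productP (fj (combine (fun j => b j) ν)) m X :=
    fun ν => (log_productP (fj (combine (fun j => b j) ν)) m X).1
  have hle : ∀ (a : ℝ) (x : ℝ), 0 < x → ((Real.log X) ^ a ≤ x ↔ a * Real.log (Real.log X) ≤ Real.log x) := by
    intro a x hx
    rw [hpow, Real.le_log_iff_exp_le hx]
  have hge : ∀ (a : ℝ) (x : ℝ), 0 < x → (x ≤ (Real.log X) ^ a ↔ Real.log x ≤ a * Real.log (Real.log X)) := by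
    intro a x hx
    rw [hpow, Real.log_le_iff_le_exp hx]
  obtain ⟨h1, h2⟩ := h X hX T hT (fun j => b j) hb N L hL
  -- translation
  have key : ∀ y : ℝ, 0 ≤ y → y ≤ Y → ∀ (P Q : (Ix g r × Fin (Module.finrank ℚ K) → ℤ) → Prop) (σ : ℝ),
      (σ = 1 ∨ σ = -1) →
      (∀ ν, P ν ↔ (∀ j, Ok K (r := r j) (m := 2 * g j + 1 - r j) (fun i => Q282.GK.comb (fun j => b j) ν ⟨j, i⟩)) ∧
        (σ * exponent r m + y) * Real.log (Real.log X) ≤ σ * Real.log (productP (fj (Q282.GK.comb (fun j => b j) ν)) m X)) →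
      (∀ ν, Q ν ↔ (σ * exponent r m + y) * Real.log (Real.log X) ≤ σ * Real.log (productP (fj (Q282.GK.comb (fun j => b j) ν)) m X)) →
      (Real.log X) ^ (-(y ^ 2 / (2 * τ ^ 2)) - ε) ≤ proportion N L P ∧ proportion N L Q ≤ (Real.log X) ^ (-(y ^ 2 / (2 * τ ^ 2)) + ε) := by
    intro y hy hyY P Q σ hσ hP hQ
    obtain ⟨h3, h4⟩ := h1 y hy hyY σ hσ
    have e1 : -(y ^ 2 / (2 * τ ^ 2)) - ε = -(y ^ 2 / (2 * τ ^ 2) + ε) := by ring
    have e2 : -(y ^ 2 / (2 * τ ^ 2)) + ε = -(y ^ 2 / (2 * τ ^ 2) - ε) := by ring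
    have e3 : (box N L).filter P = (Q282.GK.kbox N L).filter fun ν =>
        (∀ j, Ok K (r := r j) (m := 2 * g j + 1 - r j) (fun i => Q282.GK.comb (fun j => b j) ν ⟨j, i⟩)) ∧
        (σ * exponent r m + y) * Real.log (Real.log X) ≤ σ * Real.log (productP (fj (Q282.GK.comb (fun j => b j) ν)) m X) :=
      filter_congr fun n _ => hP n
    have e4 : (box N L).filter Q = (Q282.GK.kbox N L).filter fun ν =>
        (σ * exponent r m + y) * Real.log (Real.log X) ≤ σ * Real.log (productP (fj (Q282.GK.comb (fun j => b j) ν)) m X) :=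
      filter_congr fun n _ => hQ n
    unfold proportion
    rw [hpow, hpow, e1, e2, le_div_iff₀ hP0, div_le_iff₀ hP0, neg_mul, neg_mul, e3, e4]
    exact ⟨h3, h4⟩
  refine ⟨fun y hy hyY => ?_, fun y hy hyY => ?_, fun ρ hρ => ?_⟩
  · refine key y hy hyY _ _ 1 (Or.inl rfl) (fun n => ?_) fun n => ?_
    · rw [hle _ _ (hpos n), one_mul, one_mul]
      rfl
    · rw [hle _ _ (hpos n), one_mul, one_mul]
      rfl
  · refine key y hy hyY _ _ (-1) (Or.inr rfl) (fun n => ?_) fun n => ?_
    · rw [hge _ _ (hpos n)]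
      refine and_congr Iff.rfl ?_
      show Real.log (productP (fj (Q282.GK.comb (fun j => b j) n)) m X) ≤ _ ↔ _
      constructor <;> intro h1 <;> linarith
    · rw [hge _ _ (hpos n)]
      show Real.log (productP (fj (Q282.GK.comb (fun j => b j) n)) m X) ≤ _ ↔ _
      constructor <;> intro h1 <;> linarith
  · have key3 : ∀ P : (Ix g r × Fin (Module.finrank ℚ K) → ℤ) → Prop,
        (∀ ν, P ν ↔ (∀ j, Ok K (r := r j) (m := 2 * g j + 1 - r j) (fun i => Q282.GK.comb (fun j => b j) ν ⟨j, i⟩)) ∧
          (ρ - η) * Real.log (Real.log X) ≤ Real.log (productP (fj (Q282.GK.comb (fun j => b j) ν)) m X) ∧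
            Real.log (productP (fj (Q282.GK.comb (fun j => b j) ν)) m X) ≤ (ρ + η) * Real.log (Real.log X)) →
        (Real.log X) ^ (-((ρ - exponent r m) ^ 2 / (2 * τ ^ 2)) - ε) ≤ proportion N L P := by
      intro P hP
      have h3 := h2 ρ hρ
      have e1 : -((ρ - exponent r m) ^ 2 / (2 * τ ^ 2)) - ε = -((ρ - exponent r m) ^ 2 / (2 * τ ^ 2) + ε) := by ring
      have e3 : (box N L).filter P = (Q282.GK.kbox N L).filter fun ν =>
            (∀ j, Ok K (r := r j) (m := 2 * g j + 1 - r j) (fun i => Q282.GK.comb (fun j => b j) ν ⟨j, i⟩)) ∧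
            (ρ - η) * Real.log (Real.log X) ≤ Real.log (productP (fj (Q282.GK.comb (fun j => b j) ν)) m X) ∧
              Real.log (productP (fj (Q282.GK.comb (fun j => b j) ν)) m X) ≤ (ρ + η) * Real.log (Real.log X) :=
        filter_congr fun n _ => hP n
      unfold proportion
      rw [hpow, e1, le_div_iff₀ hP0, neg_mul, e3]
      exact h3
    refine key3 _ fun n => ?_
    rw [hle _ _ (hpos n), hge _ _ (hpos n)]
    rfl

end Pool.Agent.Results.MP_29b22a_nt.LargeDeviationsProducts
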