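import Pool.Agent.Q284.R.Law

/-!
# The order and the leading coefficient of `L(H^i(X), s)` at the centre, from the Frobenius traces

`X` is a smooth projective variety of dimension `d` over a number field `K` (in Beilinson's conjecture
`K = ℚ`), `i ≤ 2 d` (in the conjecture `i` is odd), `c = (i + 1)/2`, `S` is a set of primes of `K`
containing the primes of bad reduction, and `α_{v,1}, …, α_{v,N}` are the eigenvalues of Frobenius on
`H^i(X)`, `v ∉ S`. Parts (iii) and (iv) of Beilinson's conjecture are about the order and the leading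
coefficient of the L-function at `c`, under the hypothesis (H1) that it continues meromorphically to
`c`. Only this is assumed here: `F` is meromorphic near the real segment from `c` to `i/2 + 1`; there is
no hypothesis on growth, on other points, or on the zeros. (The truncated Euler products do not give
the order without a statement stronger than the Riemann hypothesis: Goldfeld, Kuo-Murty, Conrad.)

For an angle `γ` put

`S_γ(Y) = ∑_{v ∉ S, k ≥ 1} tr(Frob_v^k) / (k q_v^{k c}) · e^{iγu} / Γ(1 + u)`, `u = log q_v^k / log Y`,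

an absolutely convergent series, and `Λ_γ = ∫_0^∞ (e^{-t} - e^{iγt} / Γ(1 + t)) dt / t`. Let `m` be the
order and `A` the leading coefficient of `F` at `c`, and `Z` the number of real zeros minus the number
of real poles of `F` to the right of `c`, with multiplicities. Then `A` has the sign `(-1)^Z`, and:

* for `γ > π/2`, whatever the zeros are,
  `S_γ(Y) = log |A| - π i Z - m (log log Y - Λ_γ) + O(1 / log Y)`; for every single such `γ`
  the order is `r` and the leading coefficient is `B` if and only if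
  `exp(S_γ(Y)) (log Y)^r → B e^{r Λ_γ}`;
* for `0 ≤ γ < π/2` the real part of `S_γ(Y) + m log log Y` is bounded if and only if there are no
  real zeros and poles to the right of `c`; and if `σ` is one, then `|Re S_γ(Y)| ≥ exp(Y^y)` for
  arbitrarily large `Y`, for all `y < σ - c`;
* for `γ = 0` and `B > 0`: `S_0(Y) + r log log Y → log B + r Λ_0` if and only if `F` has no real zeros
  and poles to the right of `c` and the order is `r` and the leading coefficient `B`.

In particular, for given numbers `r` (the dimension of the space of cycles) and `R` (the product of the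
period and the height regulator) parts (iii) and (iv) of the conjecture for `X` hold together if and
only if `exp(S_γ(Y)) (log Y)^r → b R e^{r Λ_γ}` for a rational number `b ≠ 0`: last part of `result`.
-/

set_option autoImplicit false

namespace Pool.Agent.Results.MP_29b22a_nt.RotatedLaw

open Filter Topology MeasureTheory Set NumberField IsDedekindDomain Complex
open Pool.Agent.TH958.BV (IsFrobenius cone)

variable {K : Type} [Field K] [NumberField K] {N : ℕ}

/-- `q_v`, the number of elements of the residue field of `v`. -/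
noncomputable def q (v : HeightOneSpectrum (𝓞 K)) : ℕ := Ideal.absNorm v.asIdeal

/-- The centre `(i + 1)/2`. -/
noncomputable def centre (i : ℕ) : ℝ := ((i : ℝ) + 1) / 2

/-- The L-function `∏_{v ∉ S} ∏_j (1 - α_{v,j} q_v^{-s})⁻¹`. -/
noncomputable def LFun (S : Set (HeightOneSpectrum (𝓞 K)))
    (α : HeightOneSpectrum (𝓞 K) → Fin N → ℂ) (s : ℂ) : ℂ :=
  ∏' v : {v // v ∉ S}, ∏ j, (1 - α v.1 j * (q v.1 : ℂ) ^ (-s))⁻¹

/-- (H1): `F` is a meromorphic continuation of the L-function from the half-plane `Re s > i/2 + 1` to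
a neighbourhood of the real segment from the centre to `i/2 + 1`. -/
structure IsContinuation (S : Set (HeightOneSpectrum (𝓞 K))) (i : ℕ)
    (α : HeightOneSpectrum (𝓞 K) → Fin N → ℂ) (F : ℂ → ℂ) : Prop where
  eq : ∀ s : ℂ, (i : ℝ) / 2 + 1 < s.re → F s = LFun S α s
  mero : ∀ x ∈ Icc (centre i) ((i : ℝ) / 2 + 1), MeromorphicAt F (x : ℂ)

/-- The term `tr(Frob_v^k) / (k q_v^{k c}) · e^{iγu} / Γ(1 + u)`, `u = log q_v^k / log Y`, where `k` is
`x.2 + 1` and `tr(Frob_v^k) = ∑_j α_{v,j}^k`. -/
noncomputable def term (S : Set (HeightOneSpectrum (𝓞 K))) (i : ℕ)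
    (α : HeightOneSpectrum (𝓞 K) → Fin N → ℂ) (γ Y : ℝ) (x : {v // v ∉ S} × ℕ) : ℂ :=
  (((∑ j, α x.1.1 j ^ (x.2 + 1)).re /
      (((x.2 : ℝ) + 1) * (q x.1.1 : ℝ) ^ (((x.2 : ℝ) + 1) * centre i)) : ℝ) : ℂ) *
    (exp ((γ * (((x.2 : ℝ) + 1) * Real.log (q x.1.1) / Real.log Y) : ℝ) * I) /
      ((Real.Gamma (1 + ((x.2 : ℝ) + 1) * Real.log (q x.1.1) / Real.log Y) : ℝ) : ℂ))

/-- `S_γ(Y)` -/
noncomputable def smoothed (S : Set (HeightOneSpectrum (𝓞 K))) (i : ℕ)
    (α : HeightOneSpectrum (𝓞 K) → Fin N → ℂ) (γ Y : ℝ) : ℂ := ∑' x, term S i α γ Y x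

/-- `Λ_γ = ∫_0^∞ (e^{-t} - e^{iγt} / Γ(1 + t)) dt / t` -/
noncomputable def Lam (γ : ℝ) : ℂ := ∫ t in Ioi (0 : ℝ),
  (exp (-(t : ℂ)) - exp ((γ * t : ℝ) * I) * ((Real.Gamma (1 + t))⁻¹ : ℝ)) / t

/-- The number of real zeros minus the number of real poles to the right of the centre. -/
noncomputable def excess (i : ℕ) (F : ℂ → ℂ) : ℤ :=
  ∑ᶠ σ ∈ Ioi (centre i), (meromorphicOrderAt F (σ : ℂ)).untop₀

/-- There are no real zeros and poles to the right of the centre. -/
def Clean (i : ℕ) (F : ℂ → ℂ) : Prop :=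
  ∀ σ : ℝ, centre i < σ → meromorphicOrderAt F (σ : ℂ) = 0

theorem trace_real {n d i : ℕ} {X : Set (MvPolynomial (Fin n) (𝓞 K))} (hi : i ≤ 2 * d)
    {v : HeightOneSpectrum (𝓞 K)} {α : Fin N → ℂ} (hα : IsFrobenius X d i v α) (k : ℕ) :
    (∑ j, α j ^ (k + 1)).im = 0 :=
  Q284.M.real_sum (f := fun z => z ^ (k + 1)) hα hi fun j => by rw [map_pow]

/-- **The order and the leading coefficient of `L(H^i(X), s)` at the centre.** Let `X` be a projective
variety of dimension `d` over a number field `K`, given by homogeneous equations, `i ≤ 2 d`, let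
`α_{v,1}, …, α_{v,N}` be the eigenvalues of Frobenius on `H^i(X)` for the primes `v ∉ S`, and let `F` be
a continuation of the L-function near the real segment from the centre to `i/2 + 1`. -/
theorem result (K : Type) [Field K] [NumberField K] (n : ℕ)
    (X : Set (MvPolynomial (Fin n) (𝓞 K))) (d i N : ℕ) (hi : i ≤ 2 * d)
    (S : Set (HeightOneSpectrum (𝓞 K))) (α : HeightOneSpectrum (𝓞 K) → Fin N → ℂ)
    (hα : ∀ v, v ∉ S → IsFrobenius X d i v (α v)) (F : ℂ → ℂ) (hF : IsContinuation S i α F) :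
    -- the traces are real and the series converge
    (∀ v, v ∉ S → ∀ k : ℕ, (∑ j, α v j ^ (k + 1)).im = 0) ∧
    (∀ γ Y : ℝ, Real.exp 1 ≤ Y → Summable (term S i α γ Y)) ∧
    -- the order, the leading coefficient and its sign
    ∃ (m : ℤ) (A : ℝ), meromorphicOrderAt F (centre i : ℂ) = m ∧
      meromorphicTrailingCoeffAt F (centre i : ℂ) = A ∧ A ≠ 0 ∧ A = (-1) ^ excess i F * |A| ∧
      -- the law above the right angle
      (∀ γ : ℝ, Real.pi / 2 < γ → (fun Y : ℝ => smoothed S i α γ Y - (Real.log |A| -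
        Real.pi * excess i F * I - m * (Real.log (Real.log Y) - Lam γ))) =O[atTop]
          (fun Y : ℝ => 1 / Real.log Y)) ∧
      -- the equivalence above the right angle
      (∀ γ : ℝ, Real.pi / 2 < γ → ∀ (r : ℤ) (B : ℂ), B ≠ 0 →
        ((meromorphicOrderAt F (centre i : ℂ) = r ∧ meromorphicTrailingCoeffAt F (centre i : ℂ) = B) ↔
          Tendsto (fun Y : ℝ => exp (smoothed S i α γ Y) * (Real.log Y : ℂ) ^ r) atTop
            (𝓝 (B * exp (r * Lam γ))))) ∧
      -- below the right angle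
      (∀ γ : ℝ, 0 ≤ γ → γ < Real.pi / 2 →
        ((∃ C : ℝ, ∀ᶠ Y : ℝ in atTop,
          |(smoothed S i α γ Y).re + m * Real.log (Real.log Y)| ≤ C) ↔ Clean i F) ∧
        ∀ σ : ℝ, centre i < σ → meromorphicOrderAt F (σ : ℂ) ≠ 0 → ∀ y < σ - centre i,
          ∃ᶠ Y : ℝ in atTop, Real.exp (Y ^ y) ≤ |(smoothed S i α γ Y).re|) ∧
      -- no rotation
      (∀ (r : ℤ) (B : ℝ), 0 < B →
        ((Clean i F ∧ meromorphicOrderAt F (centre i : ℂ) = r ∧
          meromorphicTrailingCoeffAt F (centre i : ℂ) = B) ↔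
          Tendsto (fun Y : ℝ => (smoothed S i α 0 Y).re + r * Real.log (Real.log Y)) atTop
            (𝓝 (Real.log B + r * (Lam 0).re)))) ∧
      -- parts (iii) and (iv) together, for the dimension `r` and the product `R` of the determinants
      (∀ γ : ℝ, Real.pi / 2 < γ → ∀ (r : ℕ) (R : ℂ), R ≠ 0 →
        ((meromorphicOrderAt F (centre i : ℂ) = ((r : ℤ) : WithTop ℤ) ∧
          ∃ b : ℚ, b ≠ 0 ∧ meromorphicTrailingCoeffAt F (centre i : ℂ) = b * R) ↔
        ∃ b : ℚ, b ≠ 0 ∧
          Tendsto (fun Y : ℝ => exp (smoothed S i α γ Y) * (Real.log Y : ℂ) ^ r) atTop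
            (𝓝 (b * R * exp (r * Lam γ))))) := by
  have H : Q284.R.Hyp X d i S α (centre i) F :=
    { frob := hα
      le := hi
      half := by unfold centre; linarith
      eq := hF.eq
      mero := hF.mero }
  obtain ⟨m, A, hm, hA, hA0, hsg, hlaw⟩ := H.high
  have hiff : ∀ γ : ℝ, Real.pi / 2 < γ → ∀ (r : ℤ) (B : ℂ), B ≠ 0 →
      ((meromorphicOrderAt F (centre i : ℂ) = r ∧ meromorphicTrailingCoeffAt F (centre i : ℂ) = B) ↔
        Tendsto (fun Y : ℝ => exp (smoothed S i α γ Y) * (Real.log Y : ℂ) ^ r) atTop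
          (𝓝 (B * exp (r * Lam γ)))) := fun γ hγ r B hB => H.iff hγ r hB
  refine ⟨fun v hv k => trace_real hi (hα v hv) k,
    fun γ Y hY => Q284.R.sT_summable hα hi H.half γ hY, m, A, hm, hA, hA0, hsg, hlaw, hiff,
    fun γ h0 h1 => H.low hm h0 h1, fun r B hB => H.zero r hB, fun γ hγ r R hR => ?_⟩
  constructor
  · rintro ⟨h1, b, hb, h2⟩
    refine ⟨b, hb, ?_⟩
    have h3 := (hiff γ hγ (r : ℤ) (b * R) (mul_ne_zero (by exact_mod_cast hb) hR)).1 ⟨h1, h2⟩
    simpa using h3
  · rintro ⟨b, hb, h1⟩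
    have h3 := (hiff γ hγ (r : ℤ) (b * R) (mul_ne_zero (by exact_mod_cast hb) hR)).2
      (by simpa using h1)
    exact ⟨h3.1, b, hb, h3.2⟩

end Pool.Agent.Results.MP_29b22a_nt.RotatedLaw
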